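import Pool.Agent.H.MP_73cdf8_lc.G

namespace Pool.Agent.Results.MP_73cdf8_lc.Hard

open Pool.Agent.Lib.CX Pool.Agent.Lib.ER Pool.Agent.H.MP_73cdf8_lc

theorem result : Red ETR CH := by
  refine etr_of_hom red pt_red fun n F hn hF => ?_
  have hM : 11 * nu n.length - 1 + 1 = 11 * nu n.length := by unfold nu be; omega
  have k : ∀ x : ℕ → ℝ, (∀ P ∈ (red (n, F)).1,
      ∑ i ∈ Finset.range ((red (n, F)).2 + 1) with Even i, (ev P (x (i + 1)) - ev P (x i)) =
        ∑ i ∈ Finset.range ((red (n, F)).2 + 1) with Odd i, (ev P (x (i + 1)) - ev P (x i))) ↔ Cons n.length F fun r =>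
      PowerSeries.coeff r (lam (fun i => 1 - 2 * x i) (11 * nu n.length - 1)) := fun x =>
    List.forall_mem_map.trans ((forall₂_congr fun g hg => half (List.replicate (35 * nu n.length + 1) ()) x (11 * nu n.length - 1) g
      (by rw [List.length_replicate]; exact cons_lt hn hF g hg)).trans
      (cons_iff n F fun r => PowerSeries.coeff r (lam (fun i => 1 - 2 * x i) (11 * nu n.length - 1))))
  refine ⟨fun ⟨u, hu, hQ⟩ => ?_, fun ⟨x, x0, x1, _, h⟩ => sound hn hF hM (by simp [x0]) ?_ ((k x).1 h)⟩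
  · obtain ⟨c, c0, c1, mo, h⟩ := complete hn hF hM hu hQ
    refine ⟨fun i => (1 - c i) / 2, by simp [c0], ?_, fun i hi => by linarith [mo i hi], (k fun i => (1 - c i) / 2).2 ?_⟩
    · show (1 - c (2 * _ + 2)) / 2 = 1
      rw [c1]; norm_num
    · rwa [show (fun i => 1 - 2 * ((1 - c i) / 2)) = c from funext fun i => by ring]
  · show 1 - 2 * x (2 * _ + 1 + 1) = -1
    rw [show x (2 * _ + 1 + 1) = 1 from x1]; norm_num

end Pool.Agent.Results.MP_73cdf8_lc.Hard
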